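import Mathlib
import Pool.Agent.Helper55.JS.Walks
import Pool.Agent.Helper91.JS.P3

/-!
# Project JS, piece JS-4: hitting sets
-/

set_option autoImplicit false

namespace Pool.Agent.Helper55.JS

open Finset

namespace P4

open Classical in
/-- the inner vertices of a system of legs -/
noncomputable def inn {V : Type} {s : ℕ} {j : Fin s → ℕ} (f : V × Legs V j) : Finset V :=
  univ.biUnion fun c : Fin s => univ.image fun i : Fin (j c) => f.2 c i.castSucc

lemma mem_inn {V : Type} {s : ℕ} {j : Fin s → ℕ} (f : V × Legs V j) (z : V) :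
    z ∈ inn f ↔ ∃ (c : Fin s) (i : Fin (j c)), f.2 c i.castSucc = z := by
  unfold inn
  simp only [mem_biUnion, mem_image, mem_univ, true_and]

lemma card_inn {V : Type} {s : ℕ} {j : Fin s → ℕ} (f : V × Legs V j) :
    (inn f).card ≤ ∑ c, j c := by
  classical
  unfold inn
  refine card_biUnion_le.trans (sum_le_sum fun c _ => ?_)
  refine card_image_le.trans ?_
  rw [card_univ, Fintype.card_fin]

/-- a small set which meets every copy -/
lemma exists_hit {V : Type} [Fintype V] [DecidableEq V] {G : SimpleGraph V} {s t : ℕ} (hs : 1 ≤ s)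
    (ht : 1 ≤ t) {j : Fin s → ℕ} (hj : ∀ c, 1 ≤ j c) (hfree : (blow s t j).Free G)
    (X : Fin s → V) :
    ∃ F : Finset V, F.card ≤ t * ∑ c, j c ∧ ∀ f : V × Legs V j, IsCopy G j f.1 f.2 →
      (∀ c, f.2 c (Fin.last (j c)) = X c) → ∃ (c : Fin s) (i : Fin (j c)), f.2 c i.castSucc ∈ F := by
  classical
  by_contra hcon
  refine hfree ?_
  obtain ⟨x, hx, hd⟩ := greedy (V := V) (α := V × Legs V j) (t := t) (m := ∑ c, j c)
    (fun _ => {f | IsCopy G j f.1 f.2 ∧ ∀ c, f.2 c (Fin.last (j c)) = X c}) inn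
    (fun _ f _ => card_inn f) (by
      intro a F hF
      by_contra hno
      refine hcon ⟨F, hF, fun f hf hfX => ?_⟩
      by_contra hmiss
      refine hno ⟨f, ⟨hf, hfX⟩, ?_⟩
      rw [Finset.disjoint_left]
      intro z hz hzF
      rw [mem_inn] at hz
      obtain ⟨c, i, hci⟩ := hz
      refine hmiss ⟨c, i, ?_⟩
      rw [hci]
      exact hzF)
  refine isContained_of_copies hs ht hj X (fun a => (x a).1) (fun a => (x a).2)
    (fun a => (hx a).1) (fun a => (hx a).2) ?_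
  intro a b hab c c' i i' heq
  have h1 := hd a b hab
  rw [Finset.disjoint_left] at h1
  refine h1 ((mem_inn _ _).2 ⟨c, i, rfl⟩) ?_
  rw [heq]
  exact (mem_inn _ _).2 ⟨c', i', rfl⟩

end P4

/-- JS-4 -/
theorem hitting {V : Type} [Fintype V] [DecidableEq V] {G : SimpleGraph V} {s t : ℕ} (hs : 1 ≤ s)
    (ht : 1 ≤ t) {j : Fin s → ℕ} (hj : ∀ c, 1 ≤ j c) (hfree : (blow s t j).Free G)
    (X : Fin s → V) :
    IX G j X ^ 2 ≤ ((t : ℝ) * (∑ c, j c : ℕ) ^ 2) *
      ∑ c, ∑ i : Fin (j c), ∑ z, IXz G j X c i z ^ 2 := by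
  classical
  obtain ⟨F, hF, hhit⟩ := P4.exists_hit hs ht hj hfree X
  let P : Finset (V × (Σ c : Fin s, Fin (j c))) := F ×ˢ univ
  have hPcard : (P.card : ℝ) ≤ (t : ℝ) * ((∑ c, j c : ℕ) : ℝ) ^ 2 := by
    have h1 : P.card = F.card * ∑ c, j c := by
      rw [card_product, card_univ, Fintype.card_sigma]
      simp only [Fintype.card_fin]
    have h2 : P.card ≤ t * (∑ c, j c) ^ 2 := by
      rw [h1, sq, ← mul_assoc]
      exact Nat.mul_le_mul_right _ hF
    exact_mod_cast h2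
  have hle : IX G j X ≤ ∑ q ∈ P, IXz G j X q.2.1 q.2.2 q.1 := by
    unfold IX IXz
    rw [← Nat.cast_sum]
    refine Nat.cast_le.2 ?_
    refine le_trans (card_le_card ?_) card_biUnion_le
    intro f hf
    rw [mem_filter] at hf
    have hfc : IsCopy G j f.1 f.2 := by
      have h := hf.1
      unfold cps at h
      rw [mem_filter] at h
      exact h.2
    obtain ⟨c, i, hci⟩ := hhit f hfc hf.2
    rw [mem_biUnion]
    refine ⟨(f.2 c i.castSucc, ⟨c, i⟩), ?_, ?_⟩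
    · exact mem_product.2 ⟨hci, mem_univ _⟩
    · rw [mem_filter]
      exact ⟨hf.1, hf.2, rfl⟩
  have h0 : 0 ≤ IX G j X := Nat.cast_nonneg _
  have hsum : ∑ q ∈ P, IXz G j X q.2.1 q.2.2 q.1 ^ 2 ≤
      ∑ c, ∑ i : Fin (j c), ∑ z, IXz G j X c i z ^ 2 := by
    have h3 : ∑ c, ∑ i : Fin (j c), ∑ z, IXz G j X c i z ^ 2 =
        ∑ q ∈ (univ : Finset V) ×ˢ (univ : Finset (Σ c : Fin s, Fin (j c))),
          IXz G j X q.2.1 q.2.2 q.1 ^ 2 := by
      rw [sum_product_right, Fintype.sum_sigma]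
    rw [h3]
    refine sum_le_sum_of_subset_of_nonneg ?_ fun q _ _ => sq_nonneg _
    exact product_subset_product (subset_univ _) (subset_refl _)
  calc IX G j X ^ 2 ≤ (∑ q ∈ P, IXz G j X q.2.1 q.2.2 q.1) ^ 2 := pow_le_pow_left₀ h0 hle 2
    _ ≤ (P.card : ℝ) * ∑ q ∈ P, IXz G j X q.2.1 q.2.2 q.1 ^ 2 := sq_sum_le_card_mul_sum_sq
    _ ≤ ((t : ℝ) * ((∑ c, j c : ℕ) : ℝ) ^ 2) * ∑ q ∈ P, IXz G j X q.2.1 q.2.2 q.1 ^ 2 :=
        mul_le_mul_of_nonneg_right hPcard (sum_nonneg fun q _ => sq_nonneg _)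
    _ ≤ _ := mul_le_mul_of_nonneg_left hsum (by positivity)

end Pool.Agent.Helper55.JS
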